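import Pool.Agent.Y8.SK.St

/-! The induction over the stages (stage SK: skew system of order 2; adapted from
`Pool.Agent.Y319.EP.IND`). -/

open Set Filter Topology MeasureTheory

set_option autoImplicit false

namespace Pool.Agent.Y363.SK

open Pool.Agent.Y5.E (At Aw Ut Uw loc)
open Pool.Agent.Y5.F (vfk Yk Wk)
open Pool.Agent.Y6.S (Pe6 SysR Tk Rk Zp)
open Pool.Agent.Y8.EP (EE EE_pos dd Pp Pn zz th bb nb Cur Low Ub GrowE)
open Pool.Agent.Y8.SK

variable {κ lam N N₂ Q η A : ℝ} {H : ℕ → ℝ} {L C ℓ : ℕ → ℝ} {B : ℕ → ℕ → ℝ} {T : ℝ}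
  {x w v f : ℕ → ℝ → ℝ}
variable {n : ℕ} {σ : ℕ → ℝ} {t1 : ℝ}

/-- the times of the stages are increasing -/
lemma ind_mono (h : Stg κ lam η L T x w n σ) : ∀ k i, i + k ≤ n → σ i ≤ σ (i + k) := by
  intro k
  induction k with
  | zero => intro i _; exact le_rfl
  | succ k ih =>
    intro i hi
    have h1 := ih i (by omega)
    have h2 := h.σlt (i + k) (by omega)
    rw [← add_assoc]
    linarith

lemma ind_mono' (h : Stg κ lam η L T x w n σ) {i : ℕ} (hi : i ≤ n) : σ i ≤ σ n := by
  have h1 := ind_mono h (n - i) i (by omega)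
  rwa [show i + (n - i) = n by omega] at h1

lemma ind_nn (h : Stg κ lam η L T x w n σ) : 0 ≤ σ n := by
  have h1 := ind_mono' h (Nat.zero_le n)
  rwa [h.σ0] at h1

lemma dd_small (q : Pe6 κ lam N L C ℓ B) : dd lam ≤ 1 / 10 ^ 20 := by
  rw [dd]
  exact q.exp_small (by norm_num)

/-- One step of the induction. -/
theorem ind_step (hCC : S_CURC) (g : Gd κ lam N Q η L C ℓ B T x w f)
    (sv : SysV κ lam N₂ Q L T x w v) (kn : Kon κ lam N₂ Q η H A) (h : Stg κ lam η L T x w n σ)
    (hvs : VS lam N₂ Q H A L v n σ) :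
    Cur κ lam L T x w n σ T ∨ ∃ σ', Stg κ lam η L T x w (n + 1) σ' ∧
      VS lam N₂ Q H A L v (n + 1) σ' ∧ σ' n = σ n := by
  have q := g.q
  have hlm := q.lamp
  have hlmb := q.lam_big
  have hLp := q.Lp n
  have h0 : 0 ≤ σ n := ind_nn h
  set T' := min T (σ n + 62 / 100 * lam / L n) with hT'
  have hσT' : σ n < T' := lt_min h.σT (by
    have : 0 < 62 / 100 * lam / L n := by positivity
    linarith)
  have hT'T : T' ≤ T := min_le_left _ _
  set F : ℝ → ℝ := fun t => max (Yk κ x w (n + 1) t - 1) (99 / 100 - x n t) with hF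
  have hsub : Ico (σ n) T' ⊆ Ico 0 T := fun t ht => ⟨h0.trans ht.1, ht.2.trans_le hT'T⟩
  have hfc : ContinuousOn F (Ico (σ n) T') := by
    refine ContinuousOn.sup ?_ ?_
    · exact ((g.Ycont (n + 1)).mono hsub).sub continuousOn_const
    · exact continuousOn_const.sub ((g.cont n).mono hsub)
  have hf0 : F (σ n) < 0 := by
    refine max_lt ?_ ?_
    · have h1 := h.tl 0
      rw [add_zero] at h1
      have h3 : Real.exp (-(Pp 0) * lam) ≤ 1 / 10 ^ 20 := q.exp_small (by
        rw [Pp]; norm_num)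
      have h2 : √(Yk κ x w (n + 1) (σ n)) < 1 := by
        refine lt_of_le_of_lt (h1.trans h3) (by norm_num)
      have h6 : Yk κ x w (n + 1) (σ n) < 1 ^ 2 := by
        rw [← Real.sq_sqrt (g.Y_nonneg (n + 1) (σ n))]
        gcongr
      linarith
    · have := h.init; linarith
  rcases Pool.Agent.Y5.first_time hfc hf0 with hI | ⟨t1, ht1, hft1, hbelow⟩
  · -- incomplete stage
    left
    have hc : Cur κ lam L T x w n σ T' := ⟨hσT', hT'T, min_le_right _ _, fun t ht => by
      have h1 := hI t ht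
      have h2 := (max_lt_iff.1 h1)
      exact ⟨by linarith [h2.1], by linarith [h2.2]⟩⟩
    have hdur : (T' - σ n) * L n ≤ 611 / 1000 * lam := by
      by_contra hcon
      push Not at hcon
      set v' := σ n + 611 / 1000 * lam / L n with hv
      have hv1 : σ n < v' := by
        have : 0 < 611 / 1000 * lam / L n := by positivity
        linarith
      have hv2 : v' < T' := by
        have : 611 / 1000 * lam / L n < T' - σ n := by
          rw [div_lt_iff₀ hLp]; exact hcon
        linarith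
      obtain ⟨t, ht1, ht2⟩ := exists_between hv2
      have h1 := (hCC κ lam N N₂ Q η A H L C ℓ B T x w v f n σ T' g sv kn h hvs hc t
        ⟨hv1.trans ht1, ht2⟩).time
      have h2 : 611 / 1000 * lam < (t - σ n) * L n := by
        rw [← div_lt_iff₀ hLp]; linarith
      linarith
    have hT'eq : T' = T := by
      by_contra hne
      have h1 : T' = σ n + 62 / 100 * lam / L n := by
        rcases min_choice T (σ n + 62 / 100 * lam / L n) with h2 | h2
        · exact absurd h2 hne
        · exact h2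
      have h2 : (T' - σ n) * L n = 62 / 100 * lam := by
        rw [h1, add_sub_cancel_left, div_mul_cancel₀ _ hLp.ne']
      linarith
    rwa [hT'eq] at hc
  · -- complete stage
    right
    have ht1T : t1 < T := ht1.2.trans_le hT'T
    have ht10 : 0 < t1 := h0.trans_lt ht1.1
    have hc : Cur κ lam L T x w n σ t1 := ⟨ht1.1, ht1T.le, ht1.2.le.trans (min_le_right _ _),
      fun t ht => by
        have h1 := hbelow t ht
        have h2 := (max_lt_iff.1 h1)
        exact ⟨by linarith [h2.1], by linarith [h2.2]⟩⟩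
    have hcc := hCC κ lam N N₂ Q η A H L C ℓ B T x w v f n σ t1 g sv kn h hvs hc
    have hX : 9998 / 10000 ≤ x n t1 := by
      have := Pool.Agent.Y5.lim_le (f := fun τ => -(x n τ)) (T := T) (α := σ n) (t := t1)
        (c := -(9998 / 10000)) (g.cont n).neg h0 ht1T ht1.1 (fun τ hτ => by
          have := (hcc τ hτ).X
          linarith)
      linarith
    have hY1 : Yk κ x w (n + 1) t1 = 1 := by
      have h1 : 99 / 100 - x n t1 < 0 := by linarith
      have h2 : max (Yk κ x w (n + 1) t1 - 1) (99 / 100 - x n t1) = 0 :=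
        hft1
      rcases max_choice (Yk κ x w (n + 1) t1 - 1) (99 / 100 - x n t1) with h3 | h3
      · rw [h3] at h2; linarith
      · rw [h3] at h2; linarith
    have hCp := q.Cp n
    have hCs := q.C_small n
    have hZ0 : -(C n / 8) ≤ x (n + 1) t1 := by
      have h2 := Pool.Agent.Y5.lim_le (f := fun τ => -(x (n + 1) τ)) (T := T)
        (α := σ n) (t := t1) (c := C n / 8) (g.cont (n + 1)).neg h0 ht1T
        ht1.1 (fun τ hτ => by
          have h3 := (hcc τ hτ).r
          linarith)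
      linarith
    have hwη : ∀ p, w p t1 ≤ η := fun p =>
      Pool.Agent.Y5.lim_le (T := T) (α := σ n) (g.wcont p) h0 ht1T ht1.1
        (fun τ hτ => (hcc τ hτ).W p)
    have hw1 : w (n + 1) t1 ≤ dd lam := by
      have h1 := g.η_dd2
      have h2 := g.η0
      have h3 := hwη (n + 1)
      linarith
    have htl : ∀ j : ℕ, √(Yk κ x w (n + 2 + j) t1) ≤ Real.exp (-(Pp j) * lam) := fun j =>
      Pool.Agent.Y5.lim_le (f := fun τ => √(Yk κ x w (n + 2 + j) τ)) (T := T) (α := σ n)
        (g.Ycont (n + 2 + j)).sqrt h0 ht1T ht1.1 (fun τ hτ => (hcc τ hτ).tl j)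
    have htw : ∀ j : ℕ, w (n + 2 + j) t1 ≤ η * Real.exp (-(Pp j) * lam) := fun j =>
      Pool.Agent.Y5.lim_le (T := T) (α := σ n) (g.wcont (n + 2 + j)) h0 ht1T ht1.1
        (fun τ hτ => (hcc τ hτ).tw j)
    have hng : ∀ j : ℕ, -(Real.exp (-(Pn j) * lam)) ≤ x (n + 2 + j) t1 := fun j => by
      have := Pool.Agent.Y5.lim_le (f := fun τ => -(x (n + 2 + j) τ)) (T := T) (α := σ n)
        (t := t1) (c := Real.exp (-(Pn j) * lam))
        (g.cont (n + 2 + j)).neg h0 ht1T ht1.1 (fun τ hτ => by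
          have := (hcc τ hτ).ng j
          linarith)
      linarith
    have hn1 : ¬ (n + 1 ≤ n) := by omega
    refine ⟨fun i => if i ≤ n then σ i else t1, ?_, ?_, if_pos le_rfl⟩
    rotate_left
    · intro G
      have e0 : (fun i => if i ≤ n then σ i else t1) (n + 1) = t1 := if_neg hn1
      rw [e0]
      by_cases h1 : 2 * G ≤ n
      · have e1 : (fun i => if i ≤ n then σ i else t1) (2 * G) = σ (2 * G) := if_pos h1
        have e2 : (2 : ℝ) - 2 * (1 / 2) ^ (n + 1 - 2 * G) = 2 - (1 / 2) ^ (n - 2 * G) := by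
          rw [show n + 1 - 2 * G = (n - 2 * G) + 1 by omega, pow_succ]
          ring
        rw [if_pos (show 2 * G ≤ n + 1 by omega), e1, e2]
        have h3 := Pool.Agent.Y5.lim_le (f := fun τ => v G τ - 1 / Q *
          (Real.exp (4 * N₂ * (L (2 * G) * (τ - σ (2 * G)))) *
            (H 0 + A * (2 - (1 / 2) ^ (n - 2 * G))))) (T := T) (α := σ n) (t := t1) (c := 0)
          ((sv.vc G).sub (Continuous.continuousOn (by fun_prop))) h0 ht1T ht1.1
          (fun τ hτ => by
            have h4 := (hcc τ hτ).V G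
            rw [if_pos h1] at h4
            linarith)
        linarith
      · by_cases h2 : 2 * G = n + 1
        · have e1 : (fun i => if i ≤ n then σ i else t1) (2 * G) = t1 := if_neg h1
          rw [if_pos (show 2 * G ≤ n + 1 by omega), e1]
          have h3 := Pool.Agent.Y5.lim_le (f := v G) (T := T) (α := σ n) (t := t1)
            (c := 1 / Q * H 0) (sv.vc G) h0 ht1T ht1.1
            (fun τ hτ => by
              have h4 := (hcc τ hτ).V G
              rw [if_neg h1, if_pos h2, show 2 * G - n - 1 = 0 by omega, mul_one] at h4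
              exact h4)
          rw [show n + 1 - 2 * G = 0 by omega, sub_self, mul_zero, mul_zero, Real.exp_zero,
            pow_zero, mul_one, sub_self, mul_zero, add_zero, one_mul]
          exact h3
        · rw [if_neg (show ¬ 2 * G ≤ n + 1 by omega)]
          refine Pool.Agent.Y5.lim_le (f := v G) (T := T) (α := σ n) (t := t1)
            (sv.vc G) h0 ht1T ht1.1 (fun τ hτ => ?_)
          have h4 := (hcc τ hτ).V G
          rw [if_neg h1, if_neg h2] at h4
          rw [show 2 * G - (n + 1) = 2 * G - n - 1 by omega,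
            show 2 * G - n - 1 - 1 = 2 * G - n - 2 by omega]
          exact h4
    constructor
    · simp [h.σ0]
    · intro i hi
      rcases Nat.lt_succ_iff_lt_or_eq.1 hi with h1 | h1
      · rw [if_pos (by omega), if_pos (by omega)]; exact h.σlt i h1
      · subst h1
        rw [if_pos le_rfl, if_neg (by omega)]; exact ht1.1
    · rw [if_neg hn1]; exact ht1T
    · intro i hi
      rcases Nat.lt_succ_iff_lt_or_eq.1 hi with h1 | h1
      · rw [if_pos (by omega), if_pos (by omega)]; exact h.dur i h1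
      · subst h1
        rw [if_pos le_rfl, if_neg (by omega)]
        have := hc.le
        linarith
    · intro i hi hi0
      rcases Nat.lt_succ_iff_lt_or_eq.1 (Nat.lt_succ_of_le hi) with h1 | h1
      · rw [if_pos (by omega)]; exact h.aY i (by omega) hi0
      · subst h1
        rw [if_neg (by omega), hY1, Real.sqrt_one]
    · intro t ht p
      rw [if_neg hn1] at ht
      rcases le_or_gt t (σ n) with h1 | h1
      · exact h.wH t ⟨ht.1, h1⟩ p
      · rcases lt_or_eq_of_le ht.2 with h2 | h2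
        · exact (hcc t ⟨h1, h2⟩).W p
        · rw [h2]
          exact hwη p
    · rw [if_neg hn1]
      have h1 := g.Y_succ (t := t1) ⟨ht10.le, ht1T⟩ (n + 1)
      rw [hY1] at h1
      have e : n + 1 + 1 = n + 2 := rfl
      rw [e] at h1
      -- the tail is small
      have h3 : √(Yk κ x w (n + 2) t1) ≤ 1 / 10 ^ 6 := by
        have h4 := htl 0
        rw [add_zero] at h4
        have h5 : Real.exp (-(Pp 0) * lam) ≤ 1 / 10 ^ 20 := q.exp_small (by
          rw [Pp]; norm_num)
        exact (h4.trans h5).trans (by norm_num)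
      have h4 : Yk κ x w (n + 2) t1 ≤ (1 / 10 ^ 6) ^ 2 := by
        rw [← Real.sq_sqrt (g.Y_nonneg (n + 2) t1)]
        gcongr
      have hw0 := g.sy.w0 (n + 1) t1 ⟨ht10.le, ht1T⟩
      have h4w : w (n + 1) t1 ≤ 1 / 10 ^ 6 := (hw1.trans (dd_small q)).trans (by norm_num)
      have h4w2 : w (n + 1) t1 ^ 2 ≤ (1 / 10 ^ 6) ^ 2 := by gcongr
      have hκY : κ ^ 2 * Yk κ x w (n + 2) t1 ≤ Yk κ x w (n + 2) t1 :=
        mul_le_of_le_one_left (g.Y_nonneg (n + 2) t1) q.κsq
      have h5 : (9999 / 10000) ^ 2 ≤ x (n + 1) t1 ^ 2 := by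
        have e1 : (1 / 10 ^ 6 : ℝ) ^ 2 = 1 / 10 ^ 12 := by norm_num
        rw [e1] at h4 h4w2
        norm_num
        norm_num at h4 h4w2
        linarith
      have h6 : 9999 / 10000 ≤ |x (n + 1) t1| := by
        exact (le_abs_self _).trans (sq_le_sq.1 h5)
      rcases le_total 0 (x (n + 1) t1) with h7 | h7
      · rwa [abs_of_nonneg h7] at h6
      · rw [abs_of_nonpos h7] at h6
        exfalso
        linarith
    · intro _
      rw [if_neg hn1, Nat.add_sub_cancel]
      linarith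
    · intro j
      rw [if_neg hn1]
      exact htl j
    · intro j
      rw [if_neg hn1]
      exact hng j
    · intro j
      rw [if_neg hn1]
      exact htw j

lemma Y_base (g : Gd κ lam N Q η L C ℓ B T x w f) (m : ℕ) (hm : 1 ≤ m) :
    Yk κ x w m 0 = 0 := by
  rw [Yk]
  have h1 : ∀ k : ℕ, x (m + k) 0 ^ 2 + w (m + k) 0 ^ 2 = 0 := fun k => by
    have e : m + k = (m + k - 1) + 1 := by omega
    rw [e, g.sy.xs, g.sy.ws]
    norm_num
  simp only [h1, mul_zero, tsum_zero]

lemma ind_base (g : Gd κ lam N Q η L C ℓ B T x w f) :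
    Stg κ lam η L T x w 0 (fun _ => 0) := by
  have hx : ∀ j : ℕ, x (0 + 1 + j) 0 = 0 := fun j => by
    have e : 0 + 1 + j = j + 1 := by omega
    rw [e]; exact g.sy.xs j
  have hY1 : ∀ j : ℕ, Yk κ x w (0 + 1 + j) 0 = 0 := fun j => Y_base g _ (by omega)
  have hη := g.η0
  constructor
  · rfl
  · intro i hi; omega
  · exact g.hT
  · intro i hi; omega
  · intro i hi hi0; omega
  · intro t ht p
    have h1 : t = 0 := le_antisymm ht.2 ht.1
    rw [h1, g.sy.ws]
    exact hη.le
  · rw [g.sy.x0]; norm_num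
  · intro h; exact absurd rfl h
  · intro j
    rw [hY1, Real.sqrt_zero]
    positivity
  · intro j
    rw [hx, neg_nonpos]
    positivity
  · intro j
    rw [g.sy.ws]
    positivity

lemma vs_base (g : Gd κ lam N Q η L C ℓ B T x w f) (sv : SysV κ lam N₂ Q L T x w v)
    (kn : Kon κ lam N₂ Q η H A) : VS lam N₂ Q H A L v 0 (fun _ => 0) := by
  intro G
  have q := g.q
  have hlm := q.lamp
  have hlm1 := q.lam1
  have hT0 : (0 : ℝ) ∈ Ico 0 T := ⟨le_rfl, g.hT⟩
  have h1 := sv.vw G 0 hT0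
  have hv0 := sv.v0 G 0 hT0
  rw [g.sy.ws, g.sy.ws] at h1
  have e0 : √((0 : ℝ) ^ 2 + κ ^ 2 * 0 ^ 2) = 0 := by norm_num
  rw [e0, zero_sub, abs_neg, abs_of_nonneg hv0] at h1
  have hQ := kn.Q1
  have hQ0 : 0 < Q := by linarith
  have hN2 := kn.N₂1
  have hx0 : |x 0 0| = 3 / 2 := by
    rw [g.sy.x0]
    norm_num
  have hx1 : ∀ j : ℕ, |x (j + 1) 0| = 0 := fun j => by rw [g.sy.xs, abs_zero]
  have hHs : ∀ k, 4 * N₂ * Real.exp lam ≤ H k := by
    intro k
    refine le_trans ?_ (kn.Hb k)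
    have h2 : N₂ * Real.exp lam ≤ N₂ * Real.exp lam * lam :=
      le_mul_of_one_le_right (by positivity) hlm1
    have h3 : 0 ≤ N₂ * Real.exp lam := by positivity
    nlinarith
  have hHp : ∀ k, 0 < H k := fun k => lt_of_lt_of_le (by positivity) (hHs k)
  have hdiv : N₂ / Q = 1 / Q * N₂ := by ring
  rcases G with _ | _ | G
  · rw [if_pos (by norm_num)]
    have e1 : Tk κ lam L x w (2 * 0) 0 / L (2 * 0) = 15 / 4 := by
      have hY : √(Yk κ x w 0 0) = 3 / 2 := by
        rw [g.Y_succ hT0 0, g.sy.x0, g.sy.ws, Y_base g 1 le_rfl]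
        rw [show ((3 : ℝ) / 2) ^ 2 + 0 ^ 2 + κ ^ 2 * 0 = (3 / 2) ^ 2 by ring,
          Real.sqrt_sq (by norm_num)]
      have hA : At lam x w 0 0 = 0 := by
        rw [At, Finset.sum_range_zero]
      have hZ : Zp (fun p => |x p 0| + w p 0) 0 = 0 := by
        rw [Zp, if_pos rfl, if_pos (by norm_num), add_zero]
      rw [mul_zero, Tk, hY, hA, hZ]
      have := q.Lp 0
      field_simp
      norm_num
    rw [e1] at h1
    refine h1.trans ?_
    rw [hdiv, mul_assoc]
    refine mul_le_mul_of_nonneg_left ?_ (by positivity)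
    have h2 := hHs 0
    have h3 : 1 ≤ Real.exp lam := Real.one_le_exp hlm.le
    simp only [sub_self, mul_zero, Real.exp_zero, one_mul]
    nlinarith
  · rw [if_neg (by norm_num)]
    have e1 : Tk κ lam L x w (2 * (0 + 1)) 0 / L (2 * (0 + 1)) ≤ 4 := by
      have hY : √(Yk κ x w 2 0) = 0 := by
        rw [Y_base g 2 (by norm_num), Real.sqrt_zero]
      have hA : At lam x w 2 0 = (√lam)⁻¹ * (3 / 2) := by
        have hx1' := hx1 0
        rw [zero_add] at hx1'
        rw [At, Finset.sum_range_succ, Finset.sum_range_succ, Finset.sum_range_zero, hx0, hx1',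
          g.sy.ws, g.sy.ws]
        norm_num
      have hZ : Zp (fun p => |x p 0| + w p 0) 2 = 3 / 2 := by
        rw [Zp, if_neg (by norm_num), if_neg (by norm_num)]
        have e2 : |x (2 - 1) 0| = 0 := hx1 0
        have e3 : |x (2 - 2) 0| = 3 / 2 := hx0
        simp only [e2, e3, g.sy.ws]
        norm_num
      have hL := q.Lp 2
      have hs := q.sq_lam
      have hs0 := q.sq_lam0
      rw [show 2 * (0 + 1) = 2 by norm_num, Tk, hY, hA, hZ, div_le_iff₀ hL]
      have h5 : (√lam)⁻¹ ≤ 1 / 10 := hs.trans (by norm_num)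
      have h6 : (1 + (√lam)⁻¹ * (3 / 2) + 0) * (0 + 3 / 2) ≤ 4 := by nlinarith
      calc L 2 * (1 + (√lam)⁻¹ * (3 / 2) + 0) * (0 + 3 / 2)
          = L 2 * ((1 + (√lam)⁻¹ * (3 / 2) + 0) * (0 + 3 / 2)) := by ring
        _ ≤ L 2 * 4 := mul_le_mul_of_nonneg_left h6 hL.le
        _ = 4 * L 2 := by ring
    refine h1.trans ?_
    rw [hdiv, mul_assoc]
    refine mul_le_mul_of_nonneg_left ?_ (by positivity)
    have h2 := hHs (2 * (0 + 1) - 0)
    have h3 : 1 ≤ Real.exp lam * Real.exp (-(Pp (2 * (0 + 1) - 0 - 1)) * lam) := by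
      rw [← Real.exp_add]
      apply Real.one_le_exp
      have e4 : Pp (2 * (0 + 1) - 0 - 1) = 598 / 10000 := by
        rw [show 2 * (0 + 1) - 0 - 1 = 1 by norm_num, Pp]
        norm_num
      rw [e4]
      linarith
    have h4 : (0 : ℝ) < Real.exp (-(Pp (2 * (0 + 1) - 0 - 1)) * lam) := Real.exp_pos _
    calc N₂ * (Tk κ lam L x w (2 * (0 + 1)) 0 / L (2 * (0 + 1))) ≤ N₂ * 4 :=
          mul_le_mul_of_nonneg_left e1 (by linarith)
      _ = 4 * N₂ * 1 := by ring
      _ ≤ 4 * N₂ * (Real.exp lam * Real.exp (-(Pp (2 * (0 + 1) - 0 - 1)) * lam)) :=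
          mul_le_mul_of_nonneg_left h3 (by linarith)
      _ = 4 * N₂ * Real.exp lam * Real.exp (-(Pp (2 * (0 + 1) - 0 - 1)) * lam) := by ring
      _ ≤ _ := mul_le_mul_of_nonneg_right h2 h4.le
  · rw [if_neg (by omega)]
    have e1 : Tk κ lam L x w (2 * (G + 1 + 1)) 0 = 0 := by
      have hY : √(Yk κ x w (2 * (G + 1 + 1)) 0) = 0 := by
        rw [Y_base g _ (by omega), Real.sqrt_zero]
      have hZ : Zp (fun p => |x p 0| + w p 0) (2 * (G + 1 + 1)) = 0 := by
        rw [Zp, if_neg (by omega), if_neg (by omega)]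
        have e2 : |x (2 * (G + 1 + 1) - 1) 0| = 0 := by
          rw [show 2 * (G + 1 + 1) - 1 = (2 * G + 2) + 1 by omega]
          exact hx1 _
        have e3 : |x (2 * (G + 1 + 1) - 2) 0| = 0 := by
          rw [show 2 * (G + 1 + 1) - 2 = (2 * G + 1) + 1 by omega]
          exact hx1 _
        simp only [e2, e3, g.sy.ws]
        norm_num
      rw [Tk, hY, hZ]
      ring
    rw [e1, zero_div, mul_zero] at h1
    refine h1.trans ?_
    have h2 := hHp (2 * (G + 1 + 1) - 0)
    positivity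

/-- growth at the beginning of a stage -/
lemma ind_grow (hU : S_UB) (g : Gd κ lam N Q η L C ℓ B T x w f) (h : Stg κ lam η L T x w n σ)
    (hlt : σ n < t1) (ht1 : t1 ≤ T) (ht1' : t1 ≤ σ n + 62 / 100 * lam / L n)
    (hw : ∀ τ ∈ Ico 0 t1, ∀ p, w p τ ≤ 2 * η) :
    ∃ t ∈ Ico 0 T, ∃ a, (9 / 1000) ^ n ≤ a ∧ 99 / 100 * a ≤ x n t ∧
    (∀ i < n, |x i t| ≤ 200 * (1000 / 9) ^ (n - i) * a) ∧
    (∀ i ≤ n, w i t ≤ Real.exp (-(lam / 10)) * (1000 / 9) ^ (n - i) * a) ∧
    ∀ k : ℕ, √(Yk κ x w (n + 1 + k) t) ≤ Real.exp (-(lam / 250 * (k + 1))) * a := by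
  have q := g.q
  have hlm := q.lamp
  have hlmb := q.lam_big
  have h0 : 0 ≤ σ n := ind_nn h
  have hLp := q.Lp n
  have hp : 0 < 62 / 100 * lam / L n := by positivity
  have hUB := (hU κ lam N Q η L C ℓ B T x w f n σ t1 g h ht1 ht1' hw).1
  refine ⟨σ n, ⟨h0, h.σT⟩, 1, ?_, ?_, ?_, ?_, ?_⟩
  · exact pow_le_one₀ (by norm_num) (by norm_num)
  · have := h.init; linarith
  · intro i hi
    have h1 := hUB.Y i hi.le (σ n) ⟨ind_mono' h hi.le, hlt⟩
    have h3 := g.x_le ⟨h0, h.σT⟩ i
    have h4 : (1 : ℝ) ≤ (1000 / 9) ^ (n - i) := one_le_pow₀ (by norm_num)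
    linarith
  · intro i hi
    have h1 : w i (σ n) ≤ dd lam := (h.wH (σ n) ⟨h0, le_rfl⟩ i).trans (by
      have h1 := g.η_dd2
      have h2 := g.η0
      linarith)
    have h3 : dd lam ≤ Real.exp (-(lam / 10)) := by
      rw [dd]
      apply Real.exp_le_exp.2
      linarith
    have h4 : (1 : ℝ) ≤ (1000 / 9) ^ (n - i) := one_le_pow₀ (by norm_num)
    have h5 : Real.exp (-(lam / 10)) * 1 ≤ Real.exp (-(lam / 10)) * (1000 / 9) ^ (n - i) :=
      mul_le_mul_of_nonneg_left h4 (Real.exp_pos _).le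
    rw [mul_one]
    linarith
  · intro k
    refine (h.tl k).trans ?_
    rw [mul_one]
    refine Real.exp_le_exp.2 ?_
    have hk : (0 : ℝ) ≤ k := Nat.cast_nonneg k
    have h1 : 1 / 250 * ((k : ℝ) + 1) ≤ Pp k := by rw [Pp]; linarith
    have h2 := mul_le_mul_of_nonneg_right h1 hlm.le
    linarith

/-- the times of the stages are bounded -/
lemma ind_tot (hU : S_UB) (g : Gd κ lam N Q η L C ℓ B T x w f) (h : Stg κ lam η L T x w n σ)
    (h1 : t1 ≤ T) (h2 : t1 ≤ σ n + 62 / 100 * lam / L n)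
    (hw : ∀ τ ∈ Ico 0 t1, ∀ p, w p τ ≤ 2 * η) : t1 ≤ lam := by
  have q := g.q
  have hlm := q.lamp
  have h3 := (hU κ lam N Q η L C ℓ B T x w f n σ t1 g h h1 h2 hw).2 0 (Nat.zero_le n)
  rw [h.σ0, sub_zero] at h3
  have h4 := q.L0
  by_contra hcon
  push Not at hcon
  nlinarith

/-- **Induction over the stages.** -/
theorem t_IND : S_IND := by
  intro hU hCC κ lam N N₂ Q η A H L C ℓ B T x w v f g sv kn
  have q := g.q
  have hlm := q.lamp
  have hη := g.η0
  by_cases hcur : ∃ (n : ℕ) (σ : ℕ → ℝ), Stg κ lam η L T x w n σ ∧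
      VS lam N₂ Q H A L v n σ ∧ Cur κ lam L T x w n σ T
  · obtain ⟨n, σ, h, hvs, hc⟩ := hcur
    have h0 : 0 ≤ σ n := ind_nn h
    have hσT := hc.lt
    have hw : ∀ τ ∈ Ico 0 T, ∀ p, w p τ ≤ 2 * η := by
      intro τ hτ p
      rcases le_or_gt τ (σ n) with h1 | h1
      · have h2 := h.wH τ ⟨hτ.1, h1⟩ p
        linarith
      · have h2 := (hCC κ lam N N₂ Q η A H L C ℓ B T x w v f n σ T g sv kn h hvs hc τ
          ⟨h1, hτ.2⟩).W p
        linarith
    refine ⟨ind_tot hU g h le_rfl hc.le hw, Or.inr ⟨n + 2, 1, (σ n + T) / 2,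
      ⟨by linarith, by linarith⟩, ?_⟩⟩
    intro t ht k
    have h1 := (hCC κ lam N N₂ Q η A H L C ℓ B T x w v f n σ T g sv kn h hvs hc t
      ⟨by linarith [ht.1], ht.2⟩).tl k
    refine h1.trans ?_
    rw [one_mul]
    refine Real.exp_le_exp.2 ?_
    have hk : (0 : ℝ) ≤ k := Nat.cast_nonneg k
    have h2 : 1 / 100 * (k : ℝ) ≤ Pp k := by rw [Pp]; linarith
    have h3 := mul_le_mul_of_nonneg_right h2 hlm.le
    linarith
  · have hall : ∀ n, ∃ σ, Stg κ lam η L T x w n σ ∧ VS lam N₂ Q H A L v n σ := by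
      intro n
      induction n with
      | zero => exact ⟨_, ind_base g, vs_base g sv kn⟩
      | succ n ih =>
        obtain ⟨σ, h, hvs⟩ := ih
        rcases ind_step hCC g sv kn h hvs with h1 | h1
        · exact absurd ⟨n, σ, h, hvs, h1⟩ hcur
        · obtain ⟨σ', h2, h3, -⟩ := h1
          exact ⟨σ', h2, h3⟩
    refine ⟨?_, Or.inl fun n => ?_⟩
    · by_contra hcon
      push Not at hcon
      obtain ⟨Mx, hM⟩ := g.sy.bdd 10 lam hcon
      have htend : Tendsto (fun n : ℕ => (2 : ℝ) ^ n * (1 / 2)) atTop atTop :=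
        (tendsto_pow_atTop_atTop_of_one_lt one_lt_two).atTop_mul_const (by norm_num)
      obtain ⟨n, hn⟩ := (htend.eventually_gt_atTop Mx).exists
      obtain ⟨σ, h, -⟩ := hall n
      have hLp := q.Lp n
      have hp : 0 < 62 / 100 * lam / L n := by positivity
      have h0 : 0 ≤ σ n := ind_nn h
      have hσ := ind_tot hU g h (t1 := σ n) h.σT.le (by linarith) (fun τ hτ p => by
        have h2 := h.wH τ ⟨hτ.1, hτ.2.le⟩ p
        linarith)
      have h1 := hM (σ n) ⟨h0, hσ⟩ n
      have hw0 := g.sy.w0 n (σ n) ⟨h0, h.σT⟩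
      have h2 : 2 ^ n * (1 / 2) ≤ L n ^ 10 * (|x n (σ n)| + w n (σ n)) := by
        have h4 := h.init
        have h5 := q.Lpow' n
        have h6 := q.L1 n
        have h8 : (2 : ℝ) ^ n ≤ (10 ^ 30) ^ n := by gcongr; norm_num
        have h9 : L n ≤ L n ^ 10 := by
          calc L n = L n ^ 1 := (pow_one _).symm
            _ ≤ L n ^ 10 := pow_le_pow_right₀ h6 (by norm_num)
        have h10 : 1 / 2 ≤ |x n (σ n)| + w n (σ n) := by
          have := le_abs_self (x n (σ n))
          linarith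
        exact mul_le_mul (h8.trans (h5.trans h9)) h10 (by norm_num) (by positivity)
      linarith
    · obtain ⟨σ, h, hvs⟩ := hall n
      rcases ind_step hCC g sv kn h hvs with h1 | h1
      · exact absurd ⟨n, σ, h, hvs, h1⟩ hcur
      · obtain ⟨σ', h2, -, h3⟩ := h1
        have h4 := h2.σlt n (Nat.lt_succ_self n)
        have h5 := h2.dur n (Nat.lt_succ_self n)
        rw [h3] at h4 h5
        refine ind_grow hU g h h4 h2.σT.le (by linarith) (fun τ hτ p => ?_)
        have h6 := h2.wH τ ⟨hτ.1, hτ.2.le⟩ p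
        linarith

end Pool.Agent.Y363.SK
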